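import Pool.Agent.L5helper98.NG.Defs

set_option autoImplicit false

namespace Pool.Agent.L5helper54.NG

open MeasureTheory ProbabilityTheory Filter Topology Set
open Pool.Agent.L5helper98.NG
open scoped ENNReal

private lemma int_rho {d : ℕ} (β : ℝ) (hβ : 0 < β) (x : Fin d → ℝ) (f : (Fin d → ℝ) → ℝ) :
    ∫ y, f y ∂(ENNReal.ofReal β • Measure.dirac x) = β * f x := by
  rw [integral_smul_measure, integral_dirac, ENNReal.toReal_ofReal hβ.le, smul_eq_mul]

theorem ZB_b_holds (hMG : St_MG) : St_ZB := by
  intro d Ω _ P _ X hX β hβ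
  refine ⟨fun n => ?_, ?_⟩
  · have hu : Measurable (Function.uncurry
        (fun (x : Fin d → ℝ) (o : Ω) => Real.exp (β * Pool.Agent.L5helper98.NG.S X n o x))) := by
      apply measurable_uncurry_of_continuous_of_measurable
      · intro o
        have h1 : Continuous (fun x => ∑ k ∈ Finset.range n, X k o x) :=
          continuous_finsetSum _ fun k _ => hX.cont k o
        exact Real.continuous_exp.comp (continuous_const.mul h1)
      · intro x
        have h1 : Measurable (fun o => ∑ k ∈ Finset.range n, X k o x) :=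
          Finset.measurable_sum _ fun k _ => hX.meas k x
        exact Real.measurable_exp.comp (measurable_const.mul h1)
    exact hu.stronglyMeasurable.integral_prod_right.measurable
  · obtain ⟨C, hC0, hC⟩ := hMG d Ω P X hX β hβ.le
    obtain ⟨C', hC'⟩ := hX.cov_diag
    refine ⟨C + β ^ 2 * |C'| / 2, by positivity, ?_⟩
    intro n x hx
    obtain ⟨h1, h2, h3⟩ := hC n (ENNReal.ofReal β • Measure.dirac x) (by
      have hm : MeasurableSet (cube d)ᶜ := measurableSet_Icc.compl
      rw [Measure.smul_apply, Measure.dirac_apply' _ hm]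
      simp [hx]) (by simp)
    simp only [int_rho β hβ x] at h1 h2 h3
    have h4 := abs_le.1 ((hC' n x hx).trans (le_abs_self C'))
    have h5 : 0 ≤ β ^ 2 / 2 := by positivity
    have h6 := mul_le_mul_of_nonneg_left h4.1 h5
    have h7 := mul_le_mul_of_nonneg_left h4.2 h5
    refine ⟨h1, le_trans (Real.exp_le_exp.2 ?_) h2, le_trans h3 (Real.exp_le_exp.2 ?_)⟩
    · nlinarith
    · nlinarith

end Pool.Agent.L5helper54.NG
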